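import Pool.Agent.H923_Poly.ClosedMain

/-!
# MP_d6af2b_co, Q2: the closed chromatic numbers of the plane agree

`u₂ = v₂ = 7`.
-/

namespace Pool.Agent.Results.MP_d6af2b_co.ClosedIsSeven

open Pool.Agent.H923_Poly

/-- `u₂ = v₂`; in fact both are `7`. -/
theorem result : closedChromaticNumber = congruentClosedChromaticNumber ∧ closedChromaticNumber = 7 :=
  ⟨closedChromaticNumber_eq.trans congruentClosedChromaticNumber_eq.symm, closedChromaticNumber_eq⟩

end Pool.Agent.Results.MP_d6af2b_co.ClosedIsSeven
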